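import Mathlib

set_option autoImplicit false

namespace Pool.Agent.H987Z.MSU

/-- `E` is a countable Borel equivalence relation on `X`: an equivalence relation which is a
Borel subset of `X × X` and all of whose classes are countable. -/
structure IsCBER {X : Type} [MeasurableSpace X] (E : X → X → Prop) : Prop where
  equiv : Equivalence E
  borel : MeasurableSet {p : X × X | E p.1 p.2}
  countable : ∀ x, {y | E x y}.Countable

/-- `E` is Borel reducible to `F`. -/
def BorelReducible {X Y : Type} [MeasurableSpace X] [MeasurableSpace Y] (E : X → X → Prop)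
    (F : Y → Y → Prop) : Prop :=
  ∃ f : X → Y, Measurable f ∧ ∀ x x', E x x' ↔ F (f x) (f x')

/-- `F` is a universal countable Borel equivalence relation: a countable Borel equivalence
relation on a standard Borel space to which every such relation is Borel reducible. -/
def IsUniversalCBER {Y : Type} [MeasurableSpace Y] (F : Y → Y → Prop) : Prop :=
  StandardBorelSpace Y ∧ IsCBER F ∧
    ∀ (X : Type) [MeasurableSpace X] [StandardBorelSpace X] (E : X → X → Prop),
      IsCBER E → BorelReducible E F

/-- The shift action of `Γ` on `2^Γ`. -/
def shift {Γ : Type} [Group Γ] (g : Γ) (x : Γ → Bool) : Γ → Bool := fun h => x (g⁻¹ * h)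

/-- `K` is a minimal subshift of `2^Γ`: nonempty, closed, shift invariant, and every orbit in `K`
is dense in `K`. -/
def IsMinimalSubshift {Γ : Type} [Group Γ] (K : Set (Γ → Bool)) : Prop :=
  K.Nonempty ∧ IsClosed K ∧ (∀ g : Γ, ∀ x ∈ K, shift g x ∈ K) ∧
    ∀ x ∈ K, K ⊆ closure (Set.range fun g : Γ => shift g x)

/-- `Γ` is minimal subshift universal: the shift orbit equivalence relation restricted to some
minimal subshift of `2^Γ` is a universal countable Borel equivalence relation. -/
def MinimalSubshiftUniversal (Γ : Type) [Group Γ] : Prop :=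
  ∃ K : Set (Γ → Bool), IsMinimalSubshift K ∧
    IsUniversalCBER (fun x y : K => ∃ g : Γ, shift g x.1 = y.1)

end Pool.Agent.H987Z.MSU
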