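import Mathlib
import Pool.Agent.H987Z.MSU.Defs

set_option autoImplicit false

namespace Pool.Agent.H987Z.MSU

open Set Topology Filter

theorem shift_one {Γ : Type} [Group Γ] (x : Γ → Bool) : shift (1 : Γ) x = x := by
  funext h; simp [shift]

theorem shift_mul {Γ : Type} [Group Γ] (g g' : Γ) (x : Γ → Bool) :
    shift (g * g') x = shift g (shift g' x) := by
  funext h; simp [shift, mul_assoc]

theorem continuous_shift {Γ : Type} [Group Γ] (g : Γ) : Continuous (shift g) :=
  continuous_pi fun _ => continuous_apply _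

theorem measurable_shift {Γ : Type} [Group Γ] (g : Γ) : Measurable (shift g) :=
  measurable_pi_lambda _ fun _ => measurable_pi_apply _

theorem isCBER_orbit {Γ : Type} [Group Γ] [Countable Γ] (K : Set (Γ → Bool)) :
    IsCBER (fun x y : K => ∃ g : Γ, shift g x.1 = y.1) := by
  refine ⟨⟨fun x => ⟨1, shift_one _⟩, ?_, ?_⟩, ?_, ?_⟩
  · rintro x y ⟨g, hg⟩
    exact ⟨g⁻¹, by rw [← hg, ← shift_mul, inv_mul_cancel, shift_one]⟩
  · rintro x y z ⟨g, hg⟩ ⟨g', hg'⟩
    exact ⟨g' * g, by rw [shift_mul, hg, hg']⟩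
  · have : {p : K × K | ∃ g : Γ, shift g p.1.1 = p.2.1} =
        ⋃ g : Γ, {p : K × K | shift g p.1.1 = p.2.1} := by
      ext p; simp
    rw [this]
    refine MeasurableSet.iUnion fun g => ?_
    exact measurableSet_eq_fun
      ((measurable_shift g).comp (measurable_subtype_coe.comp measurable_fst))
      (measurable_subtype_coe.comp measurable_snd)
  · intro x
    have h1 : (range fun g : Γ => shift g x.1).Countable := countable_range _
    have h2 := h1.preimage_of_injOn (f := (Subtype.val : K → (Γ → Bool)))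
      (Subtype.val_injective.injOn)
    exact h2

/-- Induction of a minimal expansive flow from a finite index subgroup. -/
theorem induce {Γ : Type} [Group Γ] (H : Subgroup Γ) [H.FiniteIndex] {Y : Type}
    [TopologicalSpace Y] [CompactSpace Y] [Nonempty Y] (σ : H →* Equiv.Perm Y)
    (hσ : ∀ h, Continuous (σ h)) (A : Y → Bool) (hA : Continuous A)
    (hmin : ∀ y y' : Y, y' ∈ closure (range fun h : H => σ h y))
    (hsep : ∀ y y' : Y, (∀ h : H, A (σ h y) = A (σ h y')) → y = y')
    (hmeet : ∀ y : Y, ∃ h : H, A (σ h y) = true) :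
    ∃ (K : Set (Γ → Bool)) (ι : Y → (Γ → Bool)), IsMinimalSubshift K ∧ (∀ y, ι y ∈ K) ∧
      Continuous ι ∧ ∀ y y', (∃ g : Γ, shift g (ι y) = ι y') ↔ ∃ h : H, σ h y = y' := by
  classical
  let ι : Y → (Γ → Bool) := fun y g => if hg : g ∈ H then A (σ (⟨g, hg⟩ : H)⁻¹ y) else false
  have hι : Continuous ι := by
    refine continuous_pi fun g => ?_
    by_cases hg : g ∈ H
    · simp only [ι, dif_pos hg]
      exact hA.comp (hσ _)
    · simp only [ι, dif_neg hg]
      exact continuous_const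
  have heq : ∀ (h : H) (y : Y), shift (h : Γ) (ι y) = ι (σ h y) := by
    intro h y
    funext g
    simp only [shift, ι]
    by_cases hg : g ∈ H
    · have hg' : (h : Γ)⁻¹ * g ∈ H := H.mul_mem (H.inv_mem h.2) hg
      rw [dif_pos hg, dif_pos hg']
      congr 1
      have : (⟨(h : Γ)⁻¹ * g, hg'⟩ : H)⁻¹ = (⟨g, hg⟩ : H)⁻¹ * h := by
        ext; simp
      rw [this, map_mul]
      rfl
    · have hg' : (h : Γ)⁻¹ * g ∉ H := by
        intro hh
        apply hg
        have := H.mul_mem h.2 hh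
        simpa using this
      rw [dif_neg hg, dif_neg hg']
  have hval : ∀ (h : H) (y : Y), ι y ((h⁻¹ : H) : Γ) = A (σ h y) := by
    intro h y
    simp only [ι, dif_pos (h⁻¹).2]
    have : (⟨((h⁻¹ : H) : Γ), (h⁻¹).2⟩ : H)⁻¹ = h := by
      ext; simp
    rw [this]
  have hinj : ∀ y y', ι y = ι y' → y = y' := by
    intro y y' hyy
    apply hsep
    intro h
    rw [← hval, ← hval, hyy]
  let K : Set (Γ → Bool) := ⋃ g : Γ, shift g '' range ι
  have hK : K = ⋃ q : Γ ⧸ H, shift q.out '' range ι := by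
    apply Subset.antisymm
    · intro z hz
      obtain ⟨g, w, ⟨y, rfl⟩, rfl⟩ := by simpa only [K, mem_iUnion, mem_image] using hz
      obtain ⟨h, hh⟩ := QuotientGroup.mk_out_eq_mul H g
      refine mem_iUnion.2 ⟨(g : Γ ⧸ H), ι (σ h⁻¹ y), ⟨_, rfl⟩, ?_⟩
      rw [hh, ← heq, ← shift_mul]
      simp
    · intro z hz
      obtain ⟨q, hq⟩ := mem_iUnion.1 hz
      exact mem_iUnion.2 ⟨_, hq⟩
  refine ⟨K, ι, ⟨?_, ?_, ?_, ?_⟩, ?_, hι, ?_⟩
  · exact ⟨_, mem_iUnion.2 ⟨1, ι (Classical.arbitrary Y), ⟨_, rfl⟩, rfl⟩⟩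
  · rw [hK]
    refine isClosed_iUnion_of_finite fun q => ?_
    exact ((isCompact_range hι).image (continuous_shift _)).isClosed
  · intro g z hz
    obtain ⟨g', w, hw, rfl⟩ := by simpa only [K, mem_iUnion, mem_image] using hz
    exact mem_iUnion.2 ⟨g * g', w, hw, shift_mul _ _ _⟩
  · intro z hz z' hz'
    obtain ⟨g, w, ⟨y, rfl⟩, rfl⟩ := by simpa only [K, mem_iUnion, mem_image] using hz
    obtain ⟨g', w', ⟨y', rfl⟩, rfl⟩ := by simpa only [K, mem_iUnion, mem_image] using hz'
    have hc : Continuous fun u : Y => shift g' (ι u) := (continuous_shift g').comp hι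
    have h1 := image_closure_subset_closure_image hc ⟨y', hmin y y', rfl⟩
    refine closure_mono ?_ h1
    rintro _ ⟨_, ⟨h, rfl⟩, rfl⟩
    refine ⟨g' * h * g⁻¹, ?_⟩
    simp only
    rw [← heq, ← shift_mul, ← shift_mul]
    simp
  · intro y
    exact mem_iUnion.2 ⟨1, ι y, ⟨_, rfl⟩, shift_one _⟩
  · intro y y'
    constructor
    · rintro ⟨g, hg⟩
      have hgH : g ∈ H := by
        obtain ⟨h, hh⟩ := hmeet y'
        have h1 : ι y' ((h⁻¹ : H) : Γ) = true := by
          rw [hval]; exact hh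
        rw [← hg] at h1
        simp only [shift, ι] at h1
        by_cases h2 : g⁻¹ * ((h⁻¹ : H) : Γ) ∈ H
        · have := H.mul_mem h2 h.2
          simp only [Subgroup.coe_inv, inv_mul_cancel_right] at this
          simpa using H.inv_mem this
        · rw [dif_neg h2] at h1
          exact absurd h1 (by simp)
      refine ⟨⟨g, hgH⟩, hinj _ _ ?_⟩
      rw [← heq]
      exact hg
    · rintro ⟨h, rfl⟩
      exact ⟨h, heq h y⟩

end Pool.Agent.H987Z.MSU
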