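import Mathlib
import Pool.Agent.H987Z.MSU.Ind

set_option autoImplicit false

namespace Pool.Agent.H987Z.MSU

open Set Topology Filter

abbrev Lam : Type := FreeGroup Bool
abbrev Ys : Type := Lam → Bool

def sh : Lam →* Equiv.Perm Ys where
  toFun l := ⟨shift l, shift l⁻¹, fun y => by rw [← shift_mul, inv_mul_cancel, shift_one],
    fun y => by rw [← shift_mul, mul_inv_cancel, shift_one]⟩
  map_one' := Equiv.ext fun y => shift_one y
  map_mul' a b := Equiv.ext fun y => shift_mul a b y

theorem sh_apply (l : Lam) (y : Ys) : sh l y = shift l y := rfl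

def flp (m : Lam) (y : Ys) : Ys := fun l => if l = m then !(y l) else y l

theorem flp_flp (m : Lam) (y : Ys) : flp m (flp m y) = y := by
  funext l; unfold flp; split_ifs <;> simp

def fl (m : Lam) : Equiv.Perm Ys := ⟨flp m, flp m, flp_flp m, flp_flp m⟩

theorem continuous_flp (m : Lam) : Continuous (flp m) := by
  refine continuous_pi fun l => ?_
  unfold flp
  split_ifs
  · exact (continuous_of_discreteTopology (f := fun b : Bool => !b)).comp (continuous_apply l)
  · exact continuous_apply l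

def pa : Equiv.Perm (Ys × Bool) := Equiv.prodCongrLeft fun i => sh (FreeGroup.of i)

def pb : Equiv.Perm (Ys × Bool) where
  toFun m := (if m.2 then flp 1 m.1 else m.1, !m.2)
  invFun m := (if m.2 then m.1 else flp 1 m.1, !m.2)
  left_inv := by rintro ⟨y, _ | _⟩ <;> simp [flp_flp]
  right_inv := by rintro ⟨y, _ | _⟩ <;> simp [flp_flp]

def tau : FreeGroup (Fin 2) →* Equiv.Perm (Ys × Bool) :=
  FreeGroup.lift fun i => if i = 0 then pa else pb

theorem tau_a : tau (FreeGroup.of 0) = pa := by simp [tau]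
theorem tau_b : tau (FreeGroup.of 1) = pb := by simp [tau]

theorem pa_apply (y : Ys) (i : Bool) : pa (y, i) = (shift (FreeGroup.of i) y, i) := rfl
theorem pa_inv_apply (y : Ys) (i : Bool) : pa⁻¹ (y, i) = (shift (FreeGroup.of i)⁻¹ y, i) := rfl
theorem pb_apply (y : Ys) (i : Bool) : pb (y, i) = (if i then flp 1 y else y, !i) := rfl
theorem pb_inv_apply (y : Ys) (i : Bool) : pb⁻¹ (y, i) = (if i then y else flp 1 y, !i) := rfl

/-- induction principle for properties of the permutations `tau φ` -/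
theorem tau_ind (P : Equiv.Perm (Ys × Bool) → Prop) (h1 : P 1) (ha : P pa) (ha' : P pa⁻¹)
    (hb : P pb) (hb' : P pb⁻¹) (hm : ∀ p q, P p → P q → P (p * q)) (φ : FreeGroup (Fin 2)) :
    P (tau φ) := by
  induction φ using FreeGroup.induction_on with
  | C1 => simpa using h1
  | of x =>
    fin_cases x
    · exact tau_a ▸ ha
    · exact tau_b ▸ hb
  | inv_of x _ =>
    rw [map_inv]
    fin_cases x
    · exact tau_a ▸ ha'
    · exact tau_b ▸ hb'
  | mul x y hx hy => rw [map_mul]; exact hm _ _ hx hy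

theorem cont_bool {Z : Type} [TopologicalSpace Z] (f : Ys × Bool → Z)
    (h : ∀ i, Continuous fun y => f (y, i)) : Continuous f := by
  rw [continuous_prod_of_discrete_right]
  exact h

theorem continuous_tau (φ : FreeGroup (Fin 2)) : Continuous (tau φ) := by
  refine tau_ind (fun p => Continuous p) continuous_id ?_ ?_ ?_ ?_ ?_ φ
  · refine cont_bool _ fun i => ?_
    simp only [pa_apply]
    exact (continuous_shift _).prodMk continuous_const
  · refine cont_bool _ fun i => ?_
    simp only [pa_inv_apply]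
    exact (continuous_shift _).prodMk continuous_const
  · refine cont_bool _ fun i => ?_
    simp only [pb_apply]
    cases i
    · exact continuous_id.prodMk continuous_const
    · exact (continuous_flp 1).prodMk continuous_const
  · refine cont_bool _ fun i => ?_
    simp only [pb_inv_apply]
    cases i
    · exact (continuous_flp 1).prodMk continuous_const
    · exact continuous_id.prodMk continuous_const
  · intro p q hp hq
    exact hp.comp hq

theorem tau_snd (φ : FreeGroup (Fin 2)) (m m' : Ys × Bool) :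
    (tau φ m).2 = (tau φ m').2 ↔ m.2 = m'.2 := by
  revert m m'
  refine tau_ind (fun p => ∀ m m' : Ys × Bool, (p m).2 = (p m').2 ↔ m.2 = m'.2)
    (fun _ _ => Iff.rfl) ?_ ?_ ?_ ?_ ?_ φ
  · rintro ⟨y, i⟩ ⟨y', i'⟩; simp [pa_apply]
  · rintro ⟨y, i⟩ ⟨y', i'⟩; simp only [pa_inv_apply]
  · rintro ⟨y, i⟩ ⟨y', i'⟩; simp [pb_apply]
  · rintro ⟨y, i⟩ ⟨y', i'⟩; simp only [pb_inv_apply]; simp
  · intro p q hp hq m m'
    exact (hp _ _).trans (hq _ _)

/-- two points agree up to a shift and a finite difference -/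
def Rel (y y' : Ys) : Prop := ∃ l : Lam, {μ | shift l y μ ≠ y' μ}.Finite

theorem Rel.refl (y : Ys) : Rel y y := ⟨1, by simp [shift_one]⟩

theorem Rel.trans {x y z : Ys} (h : Rel x y) (h' : Rel y z) : Rel x z := by
  obtain ⟨l, hl⟩ := h
  obtain ⟨l', hl'⟩ := h'
  refine ⟨l' * l, ?_⟩
  have h1 : {μ | shift l' (shift l x) μ ≠ shift l' y μ}.Finite := by
    have := hl.preimage (f := fun μ : Lam => l'⁻¹ * μ) (mul_right_injective _).injOn
    exact this
  refine (h1.union hl').subset ?_
  intro μ hμ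
  by_contra hc
  simp only [mem_union, mem_ofPred_eq, not_or, not_not] at hc
  apply hμ
  rw [shift_mul, hc.1, hc.2]

theorem rel_shift (l : Lam) (y : Ys) : Rel y (shift l y) := ⟨l, by simp⟩

theorem rel_flp (m : Lam) (y : Ys) : Rel y (flp m y) := by
  refine ⟨1, (finite_singleton m).subset ?_⟩
  intro μ hμ
  by_contra hc
  apply hμ
  rw [shift_one]
  simp only [flp]
  rw [if_neg (show ¬ μ = m from hc)]

theorem rel_tau (φ : FreeGroup (Fin 2)) (m : Ys × Bool) : Rel m.1 (tau φ m).1 := by
  revert m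
  refine tau_ind (fun p => ∀ m : Ys × Bool, Rel m.1 (p m).1) (fun m => Rel.refl _)
    ?_ ?_ ?_ ?_ ?_ φ
  · rintro ⟨y, i⟩; exact rel_shift _ _
  · rintro ⟨y, i⟩; exact rel_shift _ _
  · rintro ⟨y, _ | _⟩
    · exact Rel.refl _
    · exact rel_flp _ _
  · rintro ⟨y, _ | _⟩
    · exact rel_flp _ _
    · exact Rel.refl _
  · intro p q hp hq m
    exact (hq m).trans (hp _)

/-- permutations of `Ys` realised on the first copy -/
def Good (p : Equiv.Perm Ys) : Prop :=
  ∃ φ : FreeGroup (Fin 2), ∀ y, tau φ (y, false) = (p y, false)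

theorem Good.one : Good 1 := ⟨1, fun y => by simp⟩

theorem Good.mul {p q : Equiv.Perm Ys} (hp : Good p) (hq : Good q) : Good (p * q) := by
  obtain ⟨φ, hφ⟩ := hp
  obtain ⟨ψ, hψ⟩ := hq
  exact ⟨φ * ψ, fun y => by rw [map_mul, Equiv.Perm.mul_apply, hψ, hφ]; rfl⟩

theorem Good.inv {p : Equiv.Perm Ys} (hp : Good p) : Good p⁻¹ := by
  obtain ⟨φ, hφ⟩ := hp
  refine ⟨φ⁻¹, fun y => ?_⟩
  rw [map_inv, Equiv.Perm.inv_eq_iff_eq, hφ]
  simp

theorem good_sh (l : Lam) : Good (sh l) := by
  induction l using FreeGroup.induction_on with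
  | C1 => rw [map_one]; exact Good.one
  | of x =>
    cases x
    · exact ⟨FreeGroup.of 0, fun y => by rw [tau_a]; rfl⟩
    · refine ⟨(FreeGroup.of 1)⁻¹ * FreeGroup.of 0 * FreeGroup.of 1, fun y => ?_⟩
      rw [map_mul, map_mul, map_inv, tau_a, tau_b]
      rfl
  | inv_of x hx => rw [map_inv]; exact hx.inv
  | mul x y hx hy => rw [map_mul]; exact hx.mul hy

theorem good_fl_one : Good (fl 1) := by
  refine ⟨FreeGroup.of 1 * FreeGroup.of 1, fun y => ?_⟩
  rw [map_mul, tau_b]
  rfl

theorem good_fl (m : Lam) : Good (fl m) := by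
  have : fl m = sh m * fl 1 * (sh m)⁻¹ := by
    rw [← map_inv]
    ext y l
    show flp m y l = shift m (flp 1 (shift m⁻¹ y)) l
    simp only [shift, flp, inv_inv, mul_inv_cancel_left, inv_mul_eq_one]
    by_cases h : l = m
    · simp [h]
    · simp [h, Ne.symm h]
  rw [this]
  exact ((good_sh m).mul good_fl_one).mul (good_sh m).inv

theorem reach_piecewise (y y' : Ys) (I : Finset Lam) :
    ∃ φ : FreeGroup (Fin 2), tau φ (y, false) = (I.piecewise y' y, false) := by
  classical
  induction I using Finset.induction_on with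
  | empty => exact ⟨1, by simp⟩
  | insert m I hm ih =>
    obtain ⟨φ, hφ⟩ := ih
    by_cases h : y' m = y m
    · refine ⟨φ, ?_⟩
      rw [hφ]
      congr 1
      funext l
      by_cases hl : l = m
      · subst hl
        simp [Finset.piecewise, hm, h]
      · simp [Finset.piecewise, hl]
    · obtain ⟨ψ, hψ⟩ := good_fl m
      refine ⟨ψ * φ, ?_⟩
      rw [map_mul, Equiv.Perm.mul_apply, hφ, hψ]
      congr 1
      funext l
      show flp m _ l = _
      by_cases hl : l = m
      · subst hl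
        simp only [flp, if_true, Finset.piecewise, hm, if_false, Finset.mem_insert, true_or]
        revert h
        cases y' l <;> cases y l <;> simp
      · simp [flp, Finset.piecewise, hl]

theorem to_false (m : Ys × Bool) : ∃ φ : FreeGroup (Fin 2), ∃ y, tau φ m = (y, false) := by
  obtain ⟨y, _ | _⟩ := m
  · exact ⟨1, y, by simp⟩
  · exact ⟨FreeGroup.of 1, flp 1 y, by rw [tau_b]; rfl⟩

theorem tau_minimal (m m' : Ys × Bool) :
    m' ∈ closure (range fun φ : FreeGroup (Fin 2) => tau φ m) := by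
  classical
  obtain ⟨φ, y, hφ⟩ := to_false m
  obtain ⟨φ', y', hφ'⟩ := to_false m'
  have hm' : m' = tau φ'⁻¹ (y', false) := by rw [← hφ', map_inv]; simp
  have hc : Continuous fun u : Ys => tau φ'⁻¹ (u, false) :=
    (continuous_tau _).comp (continuous_id.prodMk continuous_const)
  have h0 : y' ∈ closure (range fun I : Finset Lam => I.piecewise y' y) := by
    rw [mem_closure_iff_nhds]
    intro s hs
    obtain ⟨I, hI⟩ := exists_finset_piecewise_mem_of_mem_nhds hs y
    exact ⟨_, hI, I, rfl⟩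
  have h1 := image_closure_subset_closure_image hc ⟨y', h0, rfl⟩
  rw [hm']
  refine closure_mono ?_ h1
  rintro _ ⟨_, ⟨I, rfl⟩, rfl⟩
  obtain ⟨ψ, hψ⟩ := reach_piecewise y y' I
  refine ⟨φ'⁻¹ * ψ * φ, ?_⟩
  simp only [map_mul, Equiv.Perm.mul_apply]
  rw [hφ, hψ]

def Aset (m : Ys × Bool) : Bool := !m.2 && m.1 1

theorem continuous_Aset : Continuous Aset := by
  refine cont_bool _ fun i => ?_
  cases i
  · simpa [Aset] using (continuous_apply (1 : Lam) : Continuous fun y : Ys => y 1)
  · simpa [Aset] using continuous_const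

theorem meet_false (y : Ys) : ∃ φ : FreeGroup (Fin 2), ∃ y' : Ys,
    tau φ (y, false) = (y', false) ∧ y' 1 = true := by
  cases h : y 1
  · obtain ⟨ψ, hψ⟩ := good_fl_one
    refine ⟨ψ, _, hψ y, ?_⟩
    show flp 1 y 1 = true
    simp [flp, h]
  · exact ⟨1, y, by simp, h⟩

theorem tau_meet (m : Ys × Bool) : ∃ φ : FreeGroup (Fin 2), Aset (tau φ m) = true := by
  obtain ⟨φ, y, hφ⟩ := to_false m
  obtain ⟨ψ, y', hψ, h⟩ := meet_false y
  refine ⟨ψ * φ, ?_⟩
  rw [map_mul, Equiv.Perm.mul_apply, hφ, hψ]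
  simp [Aset, h]

theorem tau_sep (m m' : Ys × Bool)
    (h : ∀ φ : FreeGroup (Fin 2), Aset (tau φ m) = Aset (tau φ m')) : m = m' := by
  obtain ⟨φ, y, hφ⟩ := to_false m
  obtain ⟨ψ, z, hψ, hz⟩ := meet_false y
  have h1 : (tau φ m').2 = false := by
    have h2 := h (ψ * φ)
    rw [map_mul, Equiv.Perm.mul_apply, Equiv.Perm.mul_apply, hφ, hψ] at h2
    have h3 : (tau ψ (tau φ m')).2 = false := by
      simp only [Aset, hz] at h2
      revert h2
      cases (tau ψ (tau φ m')).2 <;> simp
    have h4 := (tau_snd ψ (tau φ m') (y, false)).1 (by rw [h3, hψ])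
    exact h4
  obtain ⟨y', hy'⟩ : ∃ y', tau φ m' = (y', false) := ⟨(tau φ m').1, Prod.ext rfl h1⟩
  have hyy : y = y' := by
    funext l
    obtain ⟨χ, hχ⟩ := good_sh l⁻¹
    have h2 := h (χ * φ)
    rw [map_mul, Equiv.Perm.mul_apply, Equiv.Perm.mul_apply, hφ, hy', hχ, hχ] at h2
    simp only [Aset, sh_apply, shift] at h2
    simpa using h2
  apply (tau φ).injective
  rw [hφ, hy', hyy]

end Pool.Agent.H987Z.MSU
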