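import Mathlib
import Pool.Agent.H987Z.MSU.Lamp
import Pool.Agent.H244Z.CB.GE

set_option autoImplicit false

namespace Pool.Agent.H987Z.MSU

open Set Topology Filter

theorem pos_key {n m : ℕ} {k : ℤ} {e e' : Bool} (hk : |k| < 4 ^ n)
    (h : (if e then 3 else 2) * (4 : ℤ) ^ n + k = (if e' then 3 else 2) * 4 ^ m) : e = e' := by
  have hk' := abs_lt.1 hk
  have h4 : (0 : ℤ) < 4 ^ n := by positivity
  have hmn : m = n := by
    rcases lt_trichotomy m n with hlt | heq | hgt
    · exfalso
      have : (4 : ℤ) ^ (m + 1) ≤ 4 ^ n := pow_le_pow_right₀ (by norm_num) hlt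
      rw [pow_succ] at this
      have h5 : (0 : ℤ) < 4 ^ m := by positivity
      cases e <;> cases e' <;> simp at h <;> omega
    · exact heq
    · exfalso
      have : (4 : ℤ) ^ (n + 1) ≤ 4 ^ m := pow_le_pow_right₀ (by norm_num) hgt
      rw [pow_succ] at this
      cases e <;> cases e' <;> simp at h <;> omega
  subst hmn
  cases e <;> cases e' <;> simp at h <;> first | rfl | omega

/-- Every countable Borel equivalence relation is coded into `2^{F₂}` modulo shifts and finite
differences. -/
theorem exists_code {X : Type} [MeasurableSpace X] [StandardBorelSpace X] {E : X → X → Prop}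
    (hE : IsCBER E) : ∃ c : X → Ys, Measurable c ∧
      (∀ x x', E x x' → ∃ l : Lam, shift l (c x) = c x') ∧
      (∀ x x', Rel (c x) (c x') → E x x') := by
  classical
  obtain ⟨g, hg, hgi, -, hgE⟩ :=
    Pool.Agent.H244Z.CB.exists_invol hE.equiv hE.borel hE.countable
  obtain ⟨r, hr, hinj⟩ := MeasurableSpace.measurable_injection_nat_bool_of_countablySeparated X
  let ps : Equiv.Perm (X × ℤ) :=
    ⟨fun z => (g z.2.toNat z.1, z.2), fun z => (g z.2.toNat z.1, z.2),
      fun z => by simp [hgi], fun z => by simp [hgi]⟩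
  let pt : Equiv.Perm (X × ℤ) :=
    ⟨fun z => (z.1, z.2 + 1), fun z => (z.1, z.2 - 1), fun z => by simp, fun z => by simp⟩
  let κ : Lam →* Equiv.Perm (X × ℤ) := FreeGroup.lift fun i => if i then pt else ps
  have κs : κ (FreeGroup.of false) = ps := by simp [κ]
  have κt : κ (FreeGroup.of true) = pt := by simp [κ]
  have hps : Measurable ps := by
    refine Measurable.prodMk ?_ measurable_snd
    exact measurable_from_prod_countable_left (f := fun z : X × ℤ => g z.2.toNat z.1)
      fun k => hg k.toNat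
  have hκ : ∀ l : Lam, Measurable (κ l) ∧ ∀ z, E z.1 (κ l z).1 := by
    intro l
    induction l using FreeGroup.induction_on with
    | C1 => rw [map_one]; exact ⟨measurable_id, fun z => hE.equiv.refl _⟩
    | of x =>
      cases x
      · rw [κs]; exact ⟨hps, fun z => (hgE _ _).2 ⟨_, rfl⟩⟩
      · rw [κt]
        exact ⟨measurable_fst.prodMk (measurable_snd.add_const 1), fun z => hE.equiv.refl _⟩
    | inv_of x _ =>
      rw [map_inv]
      cases x
      · rw [κs]; exact ⟨hps, fun z => (hgE _ _).2 ⟨_, rfl⟩⟩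
      · rw [κt]
        exact ⟨measurable_fst.prodMk (measurable_snd.sub_const 1), fun z => hE.equiv.refl _⟩
    | mul x y hx hy =>
      rw [map_mul]
      exact ⟨hx.1.comp hy.1, fun z => hE.equiv.trans (hy.2 z) (hx.2 _)⟩
  have hptz : ∀ (j : ℤ) (z : X × ℤ), (pt ^ j) z = (z.1, z.2 + j) := by
    intro j
    induction j using Int.induction_on with
    | zero => intro z; simp
    | succ i ih =>
      intro z
      rw [zpow_add_one, Equiv.Perm.mul_apply, ih]
      show (z.1, z.2 + 1 + i) = _
      congr 1; ring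
    | pred i ih =>
      intro z
      rw [zpow_sub_one, Equiv.Perm.mul_apply, ih]
      show (z.1, z.2 - 1 + -i) = _
      congr 1; ring
  let B : Set (X × ℤ) :=
    {z | ∃ n : ℕ, z.2 = (if r z.1 n.unpair.1 then 3 else 2) * (4 : ℤ) ^ n}
  have hB : MeasurableSet B := by
    have : B = ⋃ n : ℕ, {z : X × ℤ | z.2 = (if r z.1 n.unpair.1 then 3 else 2) * (4 : ℤ) ^ n} := by
      ext z; simp [B]
    rw [this]
    refine MeasurableSet.iUnion fun n => measurableSet_eq_fun measurable_snd ?_
    exact (measurable_of_countable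
      (fun b : Bool => (if b then 3 else 2) * (4 : ℤ) ^ n)).comp
      ((measurable_pi_apply _).comp (hr.comp measurable_fst))
  let C : X × ℤ → Ys := fun z l => decide (κ l⁻¹ z ∈ B)
  have hC : Measurable C := by
    refine measurable_pi_lambda _ fun l => ?_
    refine measurable_to_bool ?_
    have : (fun z => C z l) ⁻¹' {true} = (κ l⁻¹) ⁻¹' B := by
      ext z; simp [C]
    rw [this]
    exact (hκ _).1 hB
  have hCe : ∀ l z, shift l (C z) = C (κ l z) := by
    intro l z
    funext μ
    simp only [shift, C, mul_inv_rev, inv_inv, map_mul, Equiv.Perm.mul_apply]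
  refine ⟨fun x => C (x, 0), hC.comp (measurable_id.prodMk measurable_const), ?_, ?_⟩
  · intro x x' hxx
    obtain ⟨i, hi⟩ := (hgE x x').1 hxx
    refine ⟨FreeGroup.of true ^ (-(i : ℤ)) * FreeGroup.of false * FreeGroup.of true ^ (i : ℤ), ?_⟩
    rw [hCe]
    congr 1
    simp only [map_mul, map_zpow, κs, κt, Equiv.Perm.mul_apply, hptz]
    show (g (0 + (i : ℤ)).toNat x, 0 + (i : ℤ) + -(i : ℤ)) = _
    simp [hi]
  · rintro x x' ⟨l, hl⟩
    rw [hCe] at hl
    have h1 := (hκ l).2 (x, 0)
    obtain ⟨x'', k, hz⟩ : ∃ x'' k, κ l (x, 0) = (x'', k) := ⟨_, _, rfl⟩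
    rw [hz] at hl h1
    suffices hx : x'' = x' by rw [← hx]; exact h1
    have hTinj : Function.Injective fun j : ℤ => (FreeGroup.of true : Lam) ^ (-j) := by
      intro j j' hjj
      have h2 := congrArg (fun μ : Lam => (κ μ (x, 0)).2) hjj
      simp only [map_zpow, κt, hptz] at h2
      omega
    have hfin := hl.preimage (f := fun j : ℤ => (FreeGroup.of true : Lam) ^ (-j)) hTinj.injOn
    obtain ⟨N, hN⟩ := hfin.bddAbove
    apply hinj
    funext i
    obtain ⟨n, hn1, hn2⟩ : ∃ n : ℕ, n.unpair.1 = i ∧ (N.toNat + k.natAbs : ℕ) < n := by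
      refine ⟨Nat.pair i (N.toNat + k.natAbs + 1), by simp, ?_⟩
      exact lt_of_lt_of_le (Nat.lt_succ_self _) (Nat.right_le_pair _ _)
    have hpow : (n : ℤ) < 4 ^ n := by
      have : n < 4 ^ n := Nat.lt_pow_self (by norm_num)
      exact_mod_cast this
    have hk : |k| < 4 ^ n := by
      have : |k| = (k.natAbs : ℤ) := (Int.natCast_natAbs k).symm
      omega
    set j : ℤ := (if r x' n.unpair.1 then 3 else 2) * (4 : ℤ) ^ n with hj
    have hjN : N < j := by
      have h4 : (0 : ℤ) < 4 ^ n := by positivity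
      have : (4 : ℤ) ^ n ≤ j := by
        rw [hj]; split_ifs <;> omega
      omega
    have hgood : C (x'', k) ((FreeGroup.of true : Lam) ^ (-j)) =
        C (x', 0) ((FreeGroup.of true : Lam) ^ (-j)) := by
      by_contra hc
      exact absurd (hN hc) (not_le.2 hjN)
    simp only [C, zpow_neg, inv_inv, map_zpow, κt, hptz, decide_eq_decide] at hgood
    obtain ⟨m, hm⟩ := hgood.2 ⟨n, by simp [hj]⟩
    simp only at hm
    have hm' : (if r x' n.unpair.1 then 3 else 2) * (4 : ℤ) ^ n + k =
        (if r x'' m.unpair.1 then 3 else 2) * 4 ^ m := by rw [← hm, ← hj]; ring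
    have hmn : m = n := by
      have h4 : (0 : ℤ) < 4 ^ n := by positivity
      have hk' := abs_lt.1 hk
      rcases lt_trichotomy m n with hlt | heq | hgt
      · exfalso
        have : (4 : ℤ) ^ (m + 1) ≤ 4 ^ n := pow_le_pow_right₀ (by norm_num) hlt
        rw [pow_succ] at this
        have h5 : (0 : ℤ) < 4 ^ m := by positivity
        split_ifs at hm' <;> omega
      · exact heq
      · exfalso
        have : (4 : ℤ) ^ (n + 1) ≤ 4 ^ m := pow_le_pow_right₀ (by norm_num) hgt
        rw [pow_succ] at this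
        split_ifs at hm' <;> omega
    subst hmn
    rw [← hn1]
    exact (pos_key hk hm').symm

theorem msu_of_large (Γ : Type) [Group Γ] [Countable Γ] (H : Subgroup Γ) [H.FiniteIndex]
    (ρ : H →* FreeGroup (Fin 2)) (hρ : Function.Surjective ρ) : MinimalSubshiftUniversal Γ := by
  obtain ⟨K, ι, hK, hιK, hι, hrel⟩ := induce H (tau.comp ρ) (fun h => continuous_tau _) Aset
    continuous_Aset
    (fun y y' => by
      have : (range fun h : H => (tau.comp ρ) h y) = range fun φ => tau φ y :=
        hρ.range_comp (fun φ => tau φ y)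
      rw [this]
      exact tau_minimal y y')
    (fun y y' h => tau_sep y y' fun φ => by
      obtain ⟨u, rfl⟩ := hρ φ
      exact h u)
    (fun y => by
      obtain ⟨φ, hφ⟩ := tau_meet y
      obtain ⟨u, rfl⟩ := hρ φ
      exact ⟨u, hφ⟩)
  refine ⟨K, hK, hK.2.1.measurableSet.standardBorel, isCBER_orbit K, ?_⟩
  intro X _ _ E hE
  obtain ⟨c, hc, hc1, hc2⟩ := exists_code hE
  refine ⟨fun x => ⟨ι (c x, false), hιK _⟩, ?_, ?_⟩
  · refine Measurable.subtype_mk ?_
    exact (hι.comp (continuous_id.prodMk continuous_const)).measurable.comp hc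
  · intro x x'
    simp only
    rw [hrel]
    constructor
    · intro h
      obtain ⟨l, hl⟩ := hc1 x x' h
      obtain ⟨φ, hφ⟩ := good_sh l
      obtain ⟨u, rfl⟩ := hρ φ
      refine ⟨u, ?_⟩
      show tau (ρ u) _ = _
      rw [hφ, sh_apply, hl]
    · rintro ⟨u, hu⟩
      apply hc2
      have := rel_tau (ρ u) (c x, false)
      have hu' : tau (ρ u) (c x, false) = (c x', false) := hu
      rwa [hu'] at this

end Pool.Agent.H987Z.MSU
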